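import Pool.Agent.Helper93_FL.Combine
import Pool.Agent.Helper8_FL.B4
import Pool.Agent.Helper10_FL.R3

/-!
# Consistency of a singular measure detecting every non-null set by translation
-/

open MeasureTheory Set Pool.Agent.FL

namespace Pool.Agent.Results.MP_db9878_lc.ConsistentDetection

/-- There is a model of ZFC with standard natural numbers in which some atomless singular Borel
probability measure `μ` on the real line has the following property: every set of reals of
positive outer Lebesgue measure has a translate of positive outer `μ`-measure. -/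
theorem result : ∃ (M : Type) (E : M → M → Prop), IsZFC E ∧ OmegaStd E ∧
    ∃ μ : Measure ℝ, IsProbabilityMeasure μ ∧ (∀ x, μ {x} = 0) ∧ μ ⟂ₘ (volume : Measure ℝ) ∧
      (∃ a, Codes E a (measS μ)) ∧
      (∃ c : ℕ → ℕ → ℚ × ℚ, (∃ a, Codes E a (coverS c)) ∧ SingW μ c) ∧
      ∀ A : M, IsRealSet E A → PosOuter E volume (realsOf E A) →
        ∃ t : ℝ, (∃ a, Codes E a (cutS t)) ∧ PosOuter E μ ((fun r => r + t) '' realsOf E A) :=
  combine H8.thin (H10.r3 H8.phi_stmt H8.prod H46.r1 r2)

end Pool.Agent.Results.MP_db9878_lc.ConsistentDetection
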